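import Pool.Agent.Helper42.DB.Goals2

/-!
Packet CATCUP: counting concatenations and unions.
-/

namespace Pool.Agent.Helper42.DB.PkCATCUP

theorem cat : G_CAT := by
  intro α _ m n P1 P2
  unfold cnt
  let f : (Fin (m + n + 1) → α) → (Fin (m + 1) → α) × (Fin (n + 1) → α) :=
    fun g => (fun j => g ⟨j, by omega⟩, fun j => g ⟨m + j, by omega⟩)
  have hinj : Function.Injective f := by
    intro g g' h
    funext i
    by_cases hi : (i : ℕ) ≤ m
    · have h1 := congrFun (congrArg Prod.fst h) ⟨i, by omega⟩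
      exact h1
    · have h1 := congrFun (congrArg Prod.snd h) ⟨(i : ℕ) - m, by omega⟩
      have e : (⟨m + ((i : ℕ) - m), by omega⟩ : Fin (m + n + 1)) = i := by
        ext; simp only; omega
      change g ⟨m + ((i : ℕ) - m), by omega⟩ = g' ⟨m + ((i : ℕ) - m), by omega⟩ at h1
      rw [e] at h1
      exact h1
  rw [← Set.ncard_prod]
  refine Set.ncard_le_ncard_of_injOn f ?_ hinj.injOn (Set.toFinite _)
  rintro _ ⟨w, ⟨h1, h2⟩, rfl⟩
  exact ⟨⟨w, h1, rfl⟩, ⟨sh m w, h2, rfl⟩⟩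

theorem cup : G_CUP := by
  intro α β _ n s P R h
  unfold cnt
  have hsub : res n '' {w | R w} ⊆ ⋃ x ∈ s, res n '' {w | P x w} := by
    rintro _ ⟨w, hw, rfl⟩
    obtain ⟨x, hx, hP⟩ := h w hw
    exact Set.mem_biUnion hx ⟨w, hP, rfl⟩
  exact (Set.ncard_le_ncard hsub (Set.toFinite _)).trans (Finset.set_ncard_biUnion_le s _)

theorem thm : G_CAT ∧ G_CUP := ⟨cat, cup⟩

end Pool.Agent.Helper42.DB.PkCATCUP
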