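import Pool.Agent.Helper42.DB.Goals2

/-!
Packet REVCNT: reversal of words does not change the count.
-/

namespace Pool.Agent.Helper42.DB.PkREVCNT

theorem thm : G_REVCNT := by
  intro α _ n P hP
  unfold cnt
  have hinj : Function.Injective (fun f : Fin (n + 1) → α => fun j => f (Fin.rev j)) := by
    intro f g h
    funext j
    have := congrFun h (Fin.rev j)
    simpa using this
  have himg : (fun f : Fin (n + 1) → α => fun j => f (Fin.rev j)) ''
      (res n '' {w | P (fun k => w (n - k))}) = res n '' {w | P w} := by
    ext f
    constructor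
    · rintro ⟨_, ⟨w, hw, rfl⟩, rfl⟩
      refine ⟨fun k => w (n - k), hw, ?_⟩
      funext j
      show w (n - (j : ℕ)) = w ((Fin.rev j : Fin (n + 1)) : ℕ)
      rw [Fin.val_rev]
      congr 1
      omega
    · rintro ⟨w, hw, rfl⟩
      refine ⟨res n (fun k => w (n - k)), ⟨fun k => w (n - k), ?_, rfl⟩, ?_⟩
      · refine hP w _ (fun k hk => ?_) hw
        show w k = w (n - (n - k))
        congr 1
        omega
      · funext j
        show w (n - ((Fin.rev j : Fin (n + 1)) : ℕ)) = w (j : ℕ)
        rw [Fin.val_rev]
        congr 1
        have := j.isLt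
        omega
  rw [← himg, Set.ncard_image_of_injective _ hinj]

end Pool.Agent.Helper42.DB.PkREVCNT
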